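import Pool.Agent.Lib_helper72.MC12a.Q
import Pool.Agent.Lib_helper72.MC12a.T

/-!
# c12a: all checks
-/

set_option autoImplicit false
set_option maxRecDepth 100000

namespace Pool.Agent.MC12a

open Pool.Agent.KC72 Pool.Agent.MC

theorem c12a_0 : Num c12a c12a_t := by decide +kernel

theorem c12a_om : xm c12a.kb c12a.ko (c12a.m * c12a.N) c12a.Om = true := by decide +kernel

theorem c12a_b : cB c12a = true := by decide +kernel

theorem c12a_r0 : blk (cR c12a) c12a.rels 60 0 = true := by decide +kernel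

theorem c12a_r1 : blk (cR c12a) c12a.rels 60 1 = true := by decide +kernel

theorem c12a_r2 : blk (cR c12a) c12a.rels 60 2 = true := by decide +kernel

theorem c12a_r3 : blk (cR c12a) c12a.rels 60 3 = true := by decide +kernel

theorem c12a_r4 : blk (cR c12a) c12a.rels 60 4 = true := by decide +kernel

theorem c12a_r5 : blk (cR c12a) c12a.rels 60 5 = true := by decide +kernel

theorem c12a_r' : ∀ k < 6, blk (cR c12a) c12a.rels 60 k = true
  | 0, _ => c12a_r0
  | 1, _ => c12a_r1
  | 2, _ => c12a_r2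
  | 3, _ => c12a_r3
  | 4, _ => c12a_r4
  | 5, _ => c12a_r5
  | k + 6, h => absurd h (by omega)

theorem c12a_g : allI (fun c g => cG c12a.DG c12a_t.B c12a_t.MA c12a_t.P2 c12a_t.MB c g) c12a.G 0 = true := by decide +kernel

theorem c12a_g' : c12a.toCert.chk3' = true := by decide +kernel

theorem c12a_k1 : (c12a.cls.take c12a.m).map (prF c12a_t.p c12a.n c12a.r) = c12a_t.PR := by decide +kernel

theorem c12a_k2 : (c12a.cls.take c12a.m).map (pkw (Int.ofNat c12a_t.Z) (Int.ofNat (Nat.pow c12a_t.Z c12a.n)) c12a.r) = c12a_t.PM := by decide +kernel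

theorem c12a_k3 : c12a_t.P2.map (fun x => pmb (Int.ofNat c12a_t.B) x.1 x.2 (c12a.cls.take c12a.m)) = c12a_t.MB := by decide +kernel

theorem c12a_e : c12a.cls.all (fun e => bdE c12a_t.MA c12a.n e.1.2 && bdE c12a_t.MA c12a.n e.2.2) = true := by decide +kernel

theorem c12a_xq : c12a_t.XQ.all (fun X => X.all (xm c12a_t.a c12a_t.d c12a_t.S)) = true := by decide +kernel

theorem c12a_xt : c12a_t.XT.all (fun X => X.all (xm c12a_t.a' c12a_t.d' c12a_t.K)) = true := by decide +kernel

/-- all checks -/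
theorem c12a_ok : ROk c12a :=
  rOk_of (A := c12a_t) (l4 := 60) (n4 := 6) (lQ := 40) (nQ := 10) (lT := 40) (nT := 10) c12a_0 c12a_om c12a_b
    (by decide) (by decide +kernel) c12a_r' c12a_g c12a_g' ⟨c12a_k1, c12a_k2, c12a_k3⟩ c12a_e c12a_xq c12a_xt (by decide) (by decide +kernel) c12a_q'
    (by decide) (by decide +kernel) c12a_t'

end Pool.Agent.MC12a
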